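import Pool.Agent.TH310.Cor.Whit
import Pool.Agent.N290.RJ.Stm

/-!
# Project RJ, LOC: uniform local solvability implies uniform solvability
-/

set_option autoImplicit false

open Metric Set Filter Topology WeakDual

namespace Pool.Agent.N678.RJ.Loc

open Pool.Agent.TH310.Cor
open Pool.Agent.H326R3.CB (Bt)

variable {m : ℕ}

theorem whit0 {I ι : Type} [Fintype ι]
    {F : I → ι → V m → ℂ} (hF : ∀ i j, HB (F i j)) {δ : ℝ} (hδ : 0 < δ)
    (hlow : ∀ i, ∀ z ∈ ball (0 : V m) 1, δ ≤ ∑ j, ‖F i j z‖)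
    (hloc : ∀ q : V m, ‖q‖ = 1 → SolvL F q) : Solv F := by
  classical
  by_contra hns
  letI tJ : TopologicalSpace I := ⊥
  haveI dJ : DiscreteTopology I := ⟨rfl⟩
  obtain ⟨χ, hχ⟩ := exists_zero hF hns
  obtain ⟨q, hq⟩ : ∃ q, q = pt χ := ⟨_, rfl⟩
  have hA2 : ∀ (x : I) (j : ι), HB (fun z => F x j z) := hF
  have hχA : ∀ j : ι, χ (El (f := fun x z => F x j z)
      (fun x => hA2 x j)) = 0 := fun j => hχ j
  have hlow2 : ∀ (x : I), ∀ z ∈ ball (0 : V m) 1,
      δ ≤ ∑ j, ‖F x j z‖ := fun x z hz => hlow x _ hz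
  have hq1 : ‖q‖ = 1 := by
    rcases lt_or_eq_of_le (pt_norm χ) with h3 | h3
    · exfalso
      have hpt : pt χ ∈ ball (0 : V m) 1 := by rw [mem_ball_zero_iff]; exact h3
      refine char_index (ι := ι) χ (fun o x => F x o (pt χ)) (C := 1)
        (fun o x => (hA2 x o).2 _ hpt) hδ (fun x => hlow2 x _ hpt) ?_
      intro o
      have h4 := char_interior χ h3 (El (f := fun x z => F x o z)
        (fun x => hA2 x o))
      rw [hχA o] at h4
      refine Eq.trans (congrArg χ ?_) h4.symm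
      exact ext' fun x => rfl
    · rw [hq]; exact h3
  obtain ⟨C, ρ, hρ, hg⟩ := hloc q hq1
  choose g hgd hgb hid using hg
  obtain ⟨C', hC'⟩ : ∃ C', C' = max C 1 := ⟨_, rfl⟩
  have hC'1 : 1 ≤ C' := by rw [hC']; exact le_max_right _ _
  have hCC' : C ≤ C' := by rw [hC']; exact le_max_left _ _
  have hC'0 : 0 < C' := by linarith
  obtain ⟨K, r, hK, hr, hlg⟩ := lgV (η := ρ ^ 2 / 2) (by positivity)
  have hsub : ∀ z ∈ ball (0 : V m) 1, ‖(inner ℂ q z : ℂ) - 1‖ < ρ ^ 2 / 2 →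
      z ∈ ball (0 : V m) 1 ∩ ball q ρ := by
    intro z hz hzq
    refine ⟨hz, ?_⟩
    rw [mem_ball, dist_eq_norm]
    by_contra hcon
    push Not at hcon
    have h3 := one_sub_inner hq1 (by rw [mem_ball_zero_iff] at hz; exact hz.le) hρ.le hcon
    rw [norm_sub_rev] at h3
    linarith
  have hG : ∀ (j : ι) (x : I), ∃ G : V m → ℂ, DifferentiableOn ℂ G (ball 0 1) ∧
      (∀ z ∈ ball (0 : V m) 1, ‖G z‖ ≤ K) ∧ ∀ ε, 0 < ε → ∀ z ∈ ball (0 : V m) 1,
        ‖(inner ℂ q z : ℂ) - 1‖ < r ε → ‖G z - g x j z / C'‖ ≤ ε := by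
    intro j x
    refine hlg m q hq1 (fun z => g x j z / C') ?_ ?_
    · have h3 : DifferentiableOn ℂ (fun z => g x j z * (C' : ℂ)⁻¹) (ball (0 : V m) 1 ∩ ball q ρ) :=
        (hgd x j).mul_const _
      simp only [div_eq_mul_inv]
      refine h3.mono ?_
      rintro z ⟨hz, hz2⟩
      exact hsub z hz hz2
    · intro z hz hz2
      rw [norm_div, Complex.norm_real, Real.norm_of_nonneg hC'0.le, div_le_one hC'0]
      exact (hgb x j z (hsub z hz hz2)).trans hCC'
  choose G hG1 hG2 hG3 using hG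
  obtain ⟨ε, hε⟩ : ∃ ε : ℝ, ε = 1 / (2 * C' * (Fintype.card ι + 1)) := ⟨_, rfl⟩
  have hε0 : 0 < ε := by rw [hε]; positivity
  have hNε : (Fintype.card ι : ℝ) * (C' * ε) ≤ 1 / 2 := by
    rw [hε]
    have h3 : (Fintype.card ι : ℝ) * (C' * (1 / (2 * C' * (Fintype.card ι + 1)))) =
        (Fintype.card ι / (Fintype.card ι + 1)) * (1 / 2) := by field_simp
    rw [h3]
    have h4 : (Fintype.card ι : ℝ) / (Fintype.card ι + 1) ≤ 1 := by
      rw [div_le_one (by positivity)]; linarith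
    linarith
  have hu0 : χ (∑ j, El (f := fun x z => F x j z) (fun x => hA2 x j) *
      (mk (hG1 j) (hG2 j) * Cc (C' : ℂ))) = 0 := by
    rw [map_sum]
    refine Finset.sum_eq_zero fun j _ => ?_
    rw [map_mul, hχA j, zero_mul]
  have hu1 : ‖χ (∑ j, El (f := fun x z => F x j z) (fun x => hA2 x j) *
      (mk (hG1 j) (hG2 j) * Cc (C' : ℂ)) - 1)‖ ≤ 1 / 2 := by
    refine char_boundary χ (by rw [← hq]; exact hq1) _ (ρ := min (r ε) (ρ ^ 2 / 2))
      (lt_min (hr ε hε0) (by positivity)) (by norm_num) univ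
      (by rw [Id_univ, map_one]) ?_
    intro x _ z hz
    rw [← hq] at hz
    have hz1 : ‖(inner ℂ q (z : V m) : ℂ) - 1‖ ≤ ‖(z : V m) - q‖ := by
      have h3 : (inner ℂ q (z : V m) : ℂ) - 1 = inner ℂ q ((z : V m) - q) := by
        rw [inner_sub_right, inner_self_eq_norm_sq_to_K, hq1]
        norm_num
      rw [h3]
      refine (norm_inner_le_norm _ _).trans ?_
      rw [hq1, one_mul]
    have hz2 : ‖(inner ℂ q (z : V m) : ℂ) - 1‖ < r ε := by
      have := min_le_left (r ε) (ρ ^ 2 / 2); linarith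
    have hz3 : ‖(inner ℂ q (z : V m) : ℂ) - 1‖ < ρ ^ 2 / 2 := by
      have := min_le_right (r ε) (ρ ^ 2 / 2); linarith
    have hzm := hsub z z.2 hz3
    have h3 : (∑ j, El (f := fun x z => F x j z) (fun x => hA2 x j) *
        (mk (hG1 j) (hG2 j) * Cc (C' : ℂ)) - 1 : HI (I) m).1 (x, z) =
        ∑ j, F x j z * (C' * (G j x z - g x j z / C')) := by
      have h4 : (∑ j, El (f := fun x z => F x j z) (fun x => hA2 x j) *
        (mk (hG1 j) (hG2 j) * Cc (C' : ℂ)) - 1 : HI (I) m).1 (x, z) =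
        (∑ j, El (f := fun x z => F x j z) (fun x => hA2 x j) *
        (mk (hG1 j) (hG2 j) * Cc (C' : ℂ)) : HI (I) m).1 (x, z) - 1 := rfl
      rw [h4, Pool.Agent.TH310.Cor.sum_apply, ← hid x z hzm, ← Finset.sum_sub_distrib]
      refine Finset.sum_congr rfl fun j _ => ?_
      change F x j z * (G j x z * C') - F x j z * g x j z = _
      have h5 : (C' : ℂ) ≠ 0 := by exact_mod_cast hC'0.ne'
      field_simp
    rw [h3]
    refine (norm_sum_le _ _).trans ?_
    have h4 : ∀ j ∈ (Finset.univ : Finset ι),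
        ‖F x j z * (C' * (G j x z - g x j z / C'))‖ ≤ C' * ε := by
      intro j _
      rw [norm_mul, norm_mul, Complex.norm_real, Real.norm_of_nonneg hC'0.le]
      have h5 := (hA2 x j).2 z z.2
      have h6 := hG3 j x ε hε0 z z.2 hz2
      calc ‖F x j z‖ * (C' * ‖G j x z - g x j z / C'‖) ≤ 1 * (C' * ε) := by
            gcongr
        _ = C' * ε := one_mul _
    refine (Finset.sum_le_sum h4).trans ?_
    rw [Finset.sum_const, Finset.card_univ, nsmul_eq_mul]
    exact hNε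
  rw [map_sub, hu0, map_one, zero_sub, norm_neg, norm_one] at hu1
  norm_num at hu1

/-! ### transfer to `E d` -/

open Pool.Agent.N290.RJ (E N nm B)

variable {d : ℕ}

/-- the linear map to `E d` -/
noncomputable def Ph (z : V (d + 1)) : E d := (z 0, fun i => z i.succ)

/-- its inverse -/
noncomputable def Ps (w : E d) : V (d + 1) := WithLp.toLp 2 (Fin.cons w.1 w.2)

lemma Ph_Ps (w : E d) : Ph (Ps w) = w := by
  unfold Ph Ps
  ext
  · simp
  · simp

lemma Ph_sub (z q : V (d + 1)) : Ph (z - q) = Ph z - Ph q := by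
  unfold Ph
  ext <;> simp

lemma N_Ph (z : V (d + 1)) : N (Ph z) = ‖z‖ ^ 2 := by
  rw [EuclideanSpace.norm_sq_eq, Fin.sum_univ_succ]
  rfl

lemma nm_Ph (z : V (d + 1)) : nm (Ph z) = ‖z‖ := by
  unfold nm
  rw [N_Ph, Real.sqrt_sq (norm_nonneg _)]

lemma Ph_diff : Differentiable ℂ (Ph (d := d)) := by
  unfold Ph
  apply Differentiable.prodMk
  · exact (EuclideanSpace.proj (0 : Fin (d + 1)) : V (d + 1) →L[ℂ] ℂ).differentiable
  · rw [differentiable_pi]
    intro i
    exact (EuclideanSpace.proj (i.succ : Fin (d + 1)) : V (d + 1) →L[ℂ] ℂ).differentiable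

lemma Ps_diff : Differentiable ℂ (Ps (d := d)) := by
  unfold Ps
  have h1 : Differentiable ℂ (fun w : E d => (Fin.cons w.1 w.2 : Fin (d + 1) → ℂ)) := by
    rw [differentiable_pi]
    intro i
    refine Fin.cases ?_ (fun i => ?_) i
    · simp only [Fin.cons_zero]
      exact differentiable_fst
    · simp only [Fin.cons_succ]
      exact (((ContinuousLinearMap.proj (R := ℂ) i : (Fin d → ℂ) →L[ℂ] ℂ)).comp
        (ContinuousLinearMap.snd ℂ ℂ (Fin d → ℂ))).differentiable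
  exact (PiLp.continuousLinearEquiv 2 ℂ (fun _ : Fin (d + 1) => ℂ)).symm.differentiable.comp h1

theorem loc (d : ℕ) : Pool.Agent.N290.RJ.LOC d := by
  intro M δ A f hδ hfd hfb hlow hloc
  have hball : ∀ z : V (d + 1), z ∈ ball (0 : V (d + 1)) 1 → Ph z ∈ B d := by
    intro z hz
    rw [mem_ball_zero_iff] at hz
    rw [Pool.Agent.N290.RJ.mem_B_nm, nm_Ph]
    exact hz
  have hS : Solv (fun (a : A) (j : Fin M) (z : V (d + 1)) => f a j (Ph z)) := by
    refine whit0 ?_ hδ (fun a z hz => hlow a _ (hball z hz)) ?_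
    · intro a j
      exact ⟨(hfd a j).comp Ph_diff.differentiableOn hball, fun z hz => hfb a j _ (hball z hz)⟩
    · intro q hq
      obtain ⟨ρ, C, hρ, hg⟩ := hloc (Ph q) (by rw [N_Ph, hq, one_pow])
      refine ⟨C, ρ, hρ, fun a => ?_⟩
      obtain ⟨g, hg1, hg2⟩ := hg a
      have hm : ∀ z ∈ ball (0 : V (d + 1)) 1 ∩ ball q ρ, Ph z ∈ B d ∧ nm (Ph z - Ph q) < ρ := by
        rintro z ⟨hz1, hz2⟩
        refine ⟨hball z hz1, ?_⟩
        rw [← Ph_sub, nm_Ph, ← dist_eq_norm]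
        exact hz2
      refine ⟨fun j z => g j (Ph z), fun j => (hg1 j).comp Ph_diff.differentiableOn hm, ?_, ?_⟩
      · intro j z hz
        exact (hg2 _ (hm z hz).1 (hm z hz).2).1 j
      · intro z hz
        exact (hg2 _ (hm z hz).1 (hm z hz).2).2
  obtain ⟨C, hC⟩ := hS
  have hmem : ∀ w ∈ B d, Ps w ∈ ball (0 : V (d + 1)) 1 := by
    intro w hw
    rw [mem_ball_zero_iff, ← nm_Ph, Ph_Ps]
    exact Pool.Agent.N290.RJ.mem_B_nm.1 hw
  refine ⟨C, fun a => ?_⟩
  obtain ⟨g, h1, h2, h3⟩ := hC a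
  refine ⟨fun j w => g j (Ps w), fun j => (h1 j).comp Ps_diff.differentiableOn hmem, ?_⟩
  intro w hw
  refine ⟨fun j => h2 j _ (hmem w hw), ?_⟩
  have := h3 _ (hmem w hw)
  simp only [Ph_Ps] at this
  exact this

end Pool.Agent.N678.RJ.Loc
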